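import Pool.Agent.W662.CB.Stmts2

set_option autoImplicit false

/-! Project CB2, part Q4: completeness and faithfulness of the relative commutant at a trace
vector. -/

open MeasureTheory Filter Topology Complex
open scoped InnerProductSpace ENNReal

namespace Pool.Agent.W505.CB2

open Pool.Agent.W662.CB

noncomputable section

variable {K : Type} [NormedAddCommGroup K] [InnerProductSpace ℂ K] [CompleteSpace K]

/-- the projection onto the closure of the span of a set which is invariant under the
commutant -/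
theorem proj_mem (S : VonNeumannAlgebra K) (D : Set K)
    (hD : ∀ y ∈ S.commutant, ∀ v ∈ D, y v ∈ D) :
    (Submodule.span ℂ D).topologicalClosure.starProjection ∈ S := by
  have h1 : IsStarProjection (Submodule.span ℂ D).topologicalClosure.starProjection :=
    isStarProjection_starProjection
  rw [VonNeumannAlgebra.IsStarProjection.mem_iff h1]
  intro y hy
  rw [Submodule.range_starProjection, Module.End.mem_invtSubmodule]
  have h2 : Submodule.span ℂ D ≤ ((Submodule.span ℂ D).topologicalClosure).comap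
      (y : K →ₗ[ℂ] K) := by
    rw [Submodule.span_le]
    intro v hv
    exact Submodule.le_topologicalClosure _ (Submodule.subset_span (hD y hy v hv))
  refine Submodule.topologicalClosure_minimal _ h2 ?_
  have h3 : IsClosed ((Submodule.span ℂ D).topologicalClosure : Set K) :=
    Submodule.isClosed_topologicalClosure _
  exact h3.preimage y.continuous

theorem faithful (A B : VonNeumannAlgebra K) (hAB : ∀ x : K →L[ℂ] K, x ∈ A → x ∈ B)
    (hfac : IsFac A) (p : K →L[ℂ] K) (hp : p ∈ A) (hpp : p * p = p) (ζ : K)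
    (hζ : TrV B p ζ) (hζ0 : ζ ≠ 0) (T : K →L[ℂ] K) (hT : Rel A B T) (hT0 : T ζ = 0) :
    T = 0 := by
  obtain ⟨hTB, hTA⟩ := hT
  -- `T p = 0`
  have h1 : T * p = 0 := by
    refine hζ.sep (T * p) (mul_mem hTB (hAB p hp)) ?_ ?_
    · rw [← mul_assoc, hTA p hp, mul_assoc (T * p), hpp, mul_assoc, hpp]
    · change T (p ζ) = 0
      rw [hζ.fix, hT0]
  -- the closed span of `A p K`
  obtain ⟨D, hD⟩ : ∃ D : Set K, D = {v | ∃ Y : K →L[ℂ] K, Y ∈ A ∧ ∃ w, v = Y (p w)} := ⟨_, rfl⟩
  have h2 : (Submodule.span ℂ D).topologicalClosure.starProjection ∈ A := by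
    refine proj_mem A D ?_
    intro y hy v hv
    rw [hD] at hv ⊢
    obtain ⟨Y, hY, w, rfl⟩ := hv
    rw [VonNeumannAlgebra.mem_commutant_iff] at hy
    refine ⟨Y, hY, y w, ?_⟩
    have e1 : Y (y (p w)) = y (Y (p w)) := DFunLike.congr_fun (hy Y hY) (p w)
    have e2 : p (y w) = y (p w) := DFunLike.congr_fun (hy p hp) w
    rw [e2, e1]
  have h3 : (Submodule.span ℂ D).topologicalClosure.starProjection ∈ A.commutant := by
    refine proj_mem A.commutant D ?_
    intro y hy v hv
    rw [VonNeumannAlgebra.commutant_commutant] at hy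
    rw [hD] at hv ⊢
    obtain ⟨Y, hY, w, rfl⟩ := hv
    exact ⟨y * Y, mul_mem hy hY, w, rfl⟩
  rw [VonNeumannAlgebra.mem_commutant_iff] at h3
  obtain ⟨c, hc⟩ := hfac _ h2 h3
  have h4 : ζ ∈ (Submodule.span ℂ D).topologicalClosure := by
    refine Submodule.le_topologicalClosure _ (Submodule.subset_span ?_)
    rw [hD]
    exact ⟨1, one_mem A, ζ, by rw [hζ.fix]; rfl⟩
  have h5 : (Submodule.span ℂ D).topologicalClosure.starProjection ζ = ζ :=
    Submodule.starProjection_eq_self_iff.2 h4
  have h6 : c = 1 := by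
    rw [hc] at h5
    have h7 : (c - 1) • ζ = 0 := by
      rw [sub_smul, one_smul, sub_eq_zero]
      exact h5
    rcases smul_eq_zero.1 h7 with h8 | h8
    · exact sub_eq_zero.1 h8
    · exact absurd h8 hζ0
  rw [h6, one_smul] at hc
  ext v
  have h7 : v ∈ (Submodule.span ℂ D).topologicalClosure := by
    rw [← Submodule.starProjection_eq_self_iff, hc]
    rfl
  have h8 : (Submodule.span ℂ D).topologicalClosure ≤ LinearMap.ker (T : K →ₗ[ℂ] K) := by
    refine Submodule.topologicalClosure_minimal _ ?_ T.isClosed_ker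
    rw [Submodule.span_le]
    intro u hu
    rw [hD] at hu
    obtain ⟨Y, hY, w, rfl⟩ := hu
    change T (Y (p w)) = 0
    have e1 : Y (T (p w)) = T (Y (p w)) := DFunLike.congr_fun (hTA Y hY) (p w)
    have e2 : T (p w) = 0 := DFunLike.congr_fun h1 w
    rw [← e1, e2, map_zero]
  exact h8 h7

theorem q4 : S_Q4 := by
  intro K _ _ _ A B hAB hfac p hp hpp hps ζ hζ hζ0
  refine ⟨fun T hT hT0 => faithful A B hAB hfac p hp hpp ζ hζ hζ0 T hT hT0, ?_⟩
  intro S C hS hC hcau
  have hC0 : 0 ≤ C := (norm_nonneg _).trans (hC 0)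
  obtain ⟨D, hD⟩ : ∃ D : Set K, D = {v | ∃ b : K →L[ℂ] K, b ∈ B.commutant ∧
      ∃ Y : K →L[ℂ] K, Y ∈ A ∧ v = b (Y ζ)} := ⟨_, rfl⟩
  have h2 : (Submodule.span ℂ D).topologicalClosure.starProjection ∈ B := by
    refine proj_mem B D ?_
    intro y hy v hv
    rw [hD] at hv ⊢
    obtain ⟨b, hb, Y, hY, rfl⟩ := hv
    exact ⟨y * b, mul_mem hy hb, Y, hY, rfl⟩
  have h3 : (Submodule.span ℂ D).topologicalClosure.starProjection ∈ A.commutant := by
    refine proj_mem A.commutant D ?_
    intro y hy v hv
    rw [VonNeumannAlgebra.commutant_commutant] at hy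
    rw [hD] at hv ⊢
    obtain ⟨b, hb, Y, hY, rfl⟩ := hv
    refine ⟨b, hb, y * Y, mul_mem hy hY, ?_⟩
    rw [VonNeumannAlgebra.mem_commutant_iff] at hb
    exact DFunLike.congr_fun (hb y (hAB y hy)) (Y ζ)
  rw [VonNeumannAlgebra.mem_commutant_iff] at h3
  have h4 : ζ ∈ (Submodule.span ℂ D).topologicalClosure := by
    refine Submodule.le_topologicalClosure _ (Submodule.subset_span ?_)
    rw [hD]
    exact ⟨1, one_mem _, 1, one_mem A, rfl⟩
  have h5 : (1 : K →L[ℂ] K) - (Submodule.span ℂ D).topologicalClosure.starProjection = 0 := by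
    refine faithful A B hAB hfac p hp hpp ζ hζ hζ0 _ ⟨sub_mem (one_mem B) h2, ?_⟩ ?_
    · intro Y hY
      rw [mul_sub, sub_mul, mul_one, one_mul, h3 Y hY]
    · change ζ - (Submodule.span ℂ D).topologicalClosure.starProjection ζ = 0
      rw [Submodule.starProjection_eq_self_iff.2 h4, sub_self]
  have hdense : ∀ v : K, v ∈ (Submodule.span ℂ D).topologicalClosure := by
    intro v
    rw [← Submodule.starProjection_eq_self_iff, ← sub_eq_zero.1 h5]
    rfl
  -- the sequence is a Cauchy sequence at every vector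
  have hspan : ∀ v ∈ Submodule.span ℂ D, CauchySeq (fun n => S n v) := by
    intro v hv
    induction hv using Submodule.span_induction with
    | mem v hv =>
      rw [hD] at hv
      obtain ⟨b, hb, Y, hY, rfl⟩ := hv
      rw [VonNeumannAlgebra.mem_commutant_iff] at hb
      have e1 : (fun n => S n (b (Y ζ))) = fun n => (b * Y) (S n ζ) := by
        funext n
        have e2 : S n (b (Y ζ)) = b (S n (Y ζ)) := DFunLike.congr_fun (hb _ (hS n).1) (Y ζ)
        have e3 : Y (S n ζ) = S n (Y ζ) := DFunLike.congr_fun ((hS n).2 Y hY) ζ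
        rw [e2, ← e3]
        rfl
      rw [e1]
      exact hcau.map (b * Y).uniformContinuous
    | zero =>
      simp only [map_zero]
      exact cauchySeq_const 0
    | add u v _ _ hu hv =>
      simp only [map_add]
      exact hu.add hv
    | smul c v _ hv =>
      simp only [map_smul]
      exact hv.map (c • (1 : K →L[ℂ] K)).uniformContinuous
  have hall : ∀ v : K, CauchySeq (fun n => S n v) := by
    intro v
    rw [Metric.cauchySeq_iff]
    intro ε hε
    have h6 := hdense v
    have h6' : v ∈ closure (Submodule.span ℂ D : Set K) := h6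
    rw [Metric.mem_closure_iff] at h6'
    obtain ⟨w, hw, hvw⟩ := h6' (ε / (3 * (C + 1))) (by positivity)
    obtain ⟨N, hN⟩ := Metric.cauchySeq_iff.1 (hspan w hw) (ε / 3) (by positivity)
    refine ⟨N, fun m hm n hn => ?_⟩
    have h7 := hN m hm n hn
    have h8 : ∀ k, dist (S k v) (S k w) ≤ ε / 3 := by
      intro k
      rw [dist_eq_norm, ← map_sub]
      refine ((S k).le_opNorm _).trans ?_
      rw [dist_eq_norm] at hvw
      calc ‖S k‖ * ‖v - w‖ ≤ (C + 1) * (ε / (3 * (C + 1))) :=
            mul_le_mul ((hC k).trans (by linarith)) hvw.le (norm_nonneg _) (by linarith)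
        _ = ε / 3 := by field_simp
    calc dist (S m v) (S n v) ≤ dist (S m v) (S m w) + dist (S m w) (S n w)
          + dist (S n w) (S n v) := dist_triangle4 _ _ _ _
      _ < ε / 3 + ε / 3 + ε / 3 := by
          have h9 := h8 m
          have h10 := h8 n
          rw [dist_comm] at h10
          linarith
      _ = ε := by ring
  choose F hF using fun v => cauchySeq_tendsto_of_complete (hall v)
  have hFt : Tendsto (fun n v => S n v) atTop (𝓝 F) := tendsto_pi_nhds.2 hF
  obtain ⟨S0, hS0⟩ : ∃ S0 : K →L[ℂ] K, ∀ v, S0 v = F v :=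
    ⟨continuousLinearMapOfTendsto S hFt, fun v => rfl⟩
  have hlim : ∀ v, Tendsto (fun n => S n v) atTop (𝓝 (S0 v)) := fun v => by
    rw [hS0]
    exact hF v
  refine ⟨S0, ⟨?_, ?_⟩, ?_, hlim ζ⟩
  · rw [← VonNeumannAlgebra.commutant_commutant B, VonNeumannAlgebra.mem_commutant_iff]
    intro b hb
    rw [VonNeumannAlgebra.mem_commutant_iff] at hb
    ext v
    change b (S0 v) = S0 (b v)
    have e1 : Tendsto (fun n => b (S n v)) atTop (𝓝 (b (S0 v))) :=
      (b.continuous.tendsto _).comp (hlim v)
    have e2 : (fun n => b (S n v)) = fun n => S n (b v) := by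
      funext n
      exact (DFunLike.congr_fun (hb _ (hS n).1) v).symm
    rw [e2] at e1
    exact tendsto_nhds_unique e1 (hlim (b v))
  · intro Y hY
    ext v
    change Y (S0 v) = S0 (Y v)
    have e1 : Tendsto (fun n => Y (S n v)) atTop (𝓝 (Y (S0 v))) :=
      (Y.continuous.tendsto _).comp (hlim v)
    have e2 : (fun n => Y (S n v)) = fun n => S n (Y v) := by
      funext n
      exact DFunLike.congr_fun ((hS n).2 Y hY) v
    rw [e2] at e1
    exact tendsto_nhds_unique e1 (hlim (Y v))
  · refine S0.opNorm_le_bound hC0 fun v => ?_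
    refine le_of_tendsto (hlim v).norm (Eventually.of_forall fun n => ?_)
    exact ((S n).le_opNorm v).trans (mul_le_mul_of_nonneg_right (hC n) (norm_nonneg _))

end

end Pool.Agent.W505.CB2
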